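import Pool.Agent.Helper19.LC.Count

/-! Counting blocks which contain a cube, and the recursion. -/

namespace Pool.Agent.Helper19.LC

open Finset

open Classical in
/-- number of elements of `A` in `[u, u + L)` -/
noncomputable def cnt (A : Set ℕ) (u L : ℕ) : ℕ := ((Ico u (u + L)).filter (· ∈ A)).card

lemma cnt_eq_ncard (A : Set ℕ) (L : ℕ) : cnt A 0 L = (A ∩ Set.Iio L).ncard := by
  classical
  rw [cnt, ← Set.ncard_coe_finset]
  congr 1
  ext x
  simp only [coe_filter, mem_Ico, Set.mem_ofPred_eq, Set.mem_inter_iff, Set.mem_Iio]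
  constructor
  · rintro ⟨h1, h2⟩; exact ⟨h2, by omega⟩
  · rintro ⟨h1, h2⟩; exact ⟨by omega, h1⟩

open Classical in
/-- number of blocks containing a cube of dimension `k` if there is none of dimension `k + 1` -/
lemma card_blocks_le {A : Set ℕ} {u R l k : ℕ} (hl : 1 ≤ l)
    (hno : ¬ HasCube (A ∩ Set.Ico u (u + R * l)) (k + 1)) :
    ((range R).filter (fun b => HasCube (A ∩ Set.Ico (u + b * l) (u + b * l + l)) k)).card * l ≤
      complexity A (3 * l) + 3 * l := by
  set J := (range R).filter (fun b => HasCube (A ∩ Set.Ico (u + b * l) (u + b * l + l)) k)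
    with hJ
  set J' := J.filter (fun b => 1 ≤ b ∧ b + 3 ≤ R) with hJ'
  have hJJ' : J.card ≤ J'.card + 3 := by
    have h1 : J ⊆ J' ∪ {0, R - 2, R - 1} := by
      intro b hb
      have hbR : b < R := by
        have := (mem_filter.1 hb).1
        simpa using this
      by_cases hb2 : 1 ≤ b ∧ b + 3 ≤ R
      · exact mem_union_left _ (mem_filter.2 ⟨hb, hb2⟩)
      · apply mem_union_right
        simp only [mem_insert, mem_singleton]
        omega
    calc J.card ≤ (J' ∪ {0, R - 2, R - 1}).card := card_le_card h1
      _ ≤ J'.card + ({0, R - 2, R - 1} : Finset ℕ).card := card_union_le _ _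
      _ ≤ J'.card + 3 := by
        have : ({0, R - 2, R - 1} : Finset ℕ).card ≤ 3 := card_le_three
        omega
  -- positions
  set P : Finset ℕ := (J' ×ˢ range l).image (fun p => u + (p.1 - 1) * l + 1 + p.2) with hP
  have hPcard : P.card = J'.card * l := by
    rw [hP, card_image_of_injOn, card_product, card_range]
    rintro ⟨b, i⟩ hb ⟨b', i'⟩ hb' h
    simp only [coe_product, Set.mem_prod, mem_coe, mem_range] at hb hb'
    simp only at h
    have hb1 := (mem_filter.1 hb.1).2.1
    have hb1' := (mem_filter.1 hb'.1).2.1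
    have e : (b - 1) * l + i = (b' - 1) * l + i' := by omega
    have e1 : (b - 1) * l + i = i + l * (b - 1) := by ring
    have e2 : (b' - 1) * l + i' = i' + l * (b' - 1) := by ring
    rw [e1, e2] at e
    have hm : i = i' := by
      have := congrArg (· % l) e
      simpa [Nat.add_mul_mod_self_left, Nat.mod_eq_of_lt hb.2, Nat.mod_eq_of_lt hb'.2] using this
    subst hm
    have hbb : b - 1 = b' - 1 := by
      have h3 : l * (b - 1) = l * (b' - 1) := by omega
      exact Nat.eq_of_mul_eq_mul_left hl h3
    have : b = b' := by omega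
    rw [this]
  have hle := card_positions_le (l := l) hno P (by
    intro x hx
    simp only [hP, mem_image, mem_product, mem_range, Prod.exists] at hx
    obtain ⟨b, i, ⟨hb, hi⟩, rfl⟩ := hx
    obtain ⟨hbJ, hb1, hb2⟩ := mem_filter.1 hb
    have hc := (mem_filter.1 hbJ).2
    obtain ⟨c, rfl⟩ : ∃ c, b = c + 1 := ⟨b - 1, by omega⟩
    obtain ⟨e, rfl⟩ : ∃ e, R = c + 4 + e := ⟨R - (c + 4), by omega⟩
    have e1 : c + 1 - 1 = c := by omega
    rw [e1]
    have e2 : (c + 1) * l = c * l + l := by ring
    have e3 : (c + 4 + e) * l = c * l + 4 * l + e * l := by ring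
    refine ⟨by omega, ?_, u + (c + 1) * l, ?_, ?_, hc⟩
    · rw [e3]; omega
    · rw [e2]; omega
    · rw [e2]; omega)
  rw [hPcard] at hle
  calc J.card * l ≤ (J'.card + 3) * l := Nat.mul_le_mul_right _ hJJ'
    _ = J'.card * l + 3 * l := by ring
    _ ≤ complexity A (3 * l) + 3 * l := by omega

lemma cnt_succ_blocks (A : Set ℕ) (u R l : ℕ) :
    cnt A u (R * l) = ∑ b ∈ range R, cnt A (u + b * l) l := by
  classical
  induction R with
  | zero => simp [cnt]
  | succ R ih =>
    rw [sum_range_succ, ← ih]
    simp only [cnt]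
    have h1 : Ico u (u + (R + 1) * l) = Ico u (u + R * l) ∪ Ico (u + R * l) (u + R * l + l) := by
      rw [Ico_union_Ico_eq_Ico (by omega) (by omega)]
      congr 1
      ring
    rw [h1, filter_union, card_union_of_disjoint]
    exact disjoint_filter_filter (Ico_disjoint_Ico_consecutive _ _ _)

lemma cnt_eq_zero {A : Set ℕ} {u L : ℕ} (hno : ¬ HasCube (A ∩ Set.Ico u (u + L)) 0) :
    cnt A u L = 0 := by
  classical
  rw [cnt, card_eq_zero, filter_eq_empty_iff]
  intro x hx hxA
  exact hno (hasCube_zero ⟨x, hxA, by simpa using hx⟩)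

/-- MAIN RECURSION -/
theorem cnt_le {A : Set ℕ} {R T J : ℕ} (hR : 1 ≤ R)
    (hT : ∀ i < J, complexity A (3 * R ^ i) ≤ T * (3 * R ^ i)) :
    ∀ j ≤ J, ∀ k u, ¬ HasCube (A ∩ Set.Ico u (u + R ^ j)) k →
      cnt A u (R ^ j) ≤ (6 * T + 6) ^ j * R ^ k := by
  classical
  intro j
  induction j with
  | zero =>
    intro _ k u hno
    cases k with
    | zero => rw [cnt_eq_zero hno]; exact Nat.zero_le _
    | succ k =>
      have h1 : cnt A u (R ^ 0) ≤ 1 := by
        rw [cnt]
        calc _ ≤ (Ico u (u + R ^ 0)).card := card_filter_le _ _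
          _ = 1 := by simp
      have h2 : 1 ≤ R ^ (k + 1) := Nat.one_le_pow _ _ hR
      simpa using h1.trans h2
  | succ j ih =>
    intro hj k u hno
    cases k with
    | zero => rw [cnt_eq_zero hno]; exact Nat.zero_le _
    | succ k =>
      have hpow : R ^ (j + 1) = R * R ^ j := by ring
      rw [hpow] at hno ⊢
      set l := R ^ j with hl
      have hl1 : 1 ≤ l := Nat.one_le_pow _ _ hR
      have hb := card_blocks_le hl1 hno
      have hTj := hT j (by omega)
      rw [← hl] at hTj
      set Jc := (range R).filter (fun b => HasCube (A ∩ Set.Ico (u + b * l) (u + b * l + l)) k)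
        with hJc
      have hJM : Jc.card ≤ 3 * T + 3 := by
        have h1 : Jc.card * l ≤ (3 * T + 3) * l := by
          calc Jc.card * l ≤ complexity A (3 * l) + 3 * l := hb
            _ ≤ T * (3 * l) + 3 * l := Nat.add_le_add_right hTj _
            _ = (3 * T + 3) * l := by ring
        exact Nat.le_of_mul_le_mul_right h1 hl1
      have hin : ∀ b < R, ¬ HasCube (A ∩ Set.Ico (u + b * l) (u + b * l + l)) (k + 1) := by
        intro b hbR hc
        apply hno
        apply hc.mono
        intro q hq
        refine ⟨hq.1, ?_⟩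
        have h2 := hq.2
        simp only [Set.mem_Ico] at *
        have h3 : (b + 1) * l ≤ R * l := Nat.mul_le_mul_right _ hbR
        have h4 : (b + 1) * l = b * l + l := by ring
        omega
      rw [cnt_succ_blocks]
      calc ∑ b ∈ range R, cnt A (u + b * l) l
          = ∑ b ∈ Jc, cnt A (u + b * l) l
            + ∑ b ∈ (range R).filter (fun b => ¬ HasCube (A ∩ Set.Ico (u + b * l)
                (u + b * l + l)) k), cnt A (u + b * l) l :=
            (sum_filter_add_sum_filter_not _ _ _).symm
        _ ≤ ∑ b ∈ Jc, (6 * T + 6) ^ j * R ^ (k + 1)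
            + ∑ b ∈ (range R).filter (fun b => ¬ HasCube (A ∩ Set.Ico (u + b * l)
                (u + b * l + l)) k), (6 * T + 6) ^ j * R ^ k := by
            apply Nat.add_le_add
            · apply sum_le_sum
              intro b hb'
              have hbR : b < R := by
                have := (mem_filter.1 hb').1
                simpa using this
              exact ih (by omega) (k + 1) (u + b * l) (hin b hbR)
            · apply sum_le_sum
              intro b hb'
              exact ih (by omega) k (u + b * l) (mem_filter.1 hb').2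
        _ ≤ (3 * T + 3) * ((6 * T + 6) ^ j * R ^ (k + 1)) + R * ((6 * T + 6) ^ j * R ^ k) := by
            rw [sum_const, sum_const, smul_eq_mul, smul_eq_mul]
            apply Nat.add_le_add
            · exact Nat.mul_le_mul_right _ hJM
            · apply Nat.mul_le_mul_right
              calc _ ≤ (range R).card := card_filter_le _ _
                _ = R := card_range R
        _ = (3 * T + 4) * ((6 * T + 6) ^ j * R ^ (k + 1)) := by ring
        _ ≤ (6 * T + 6) * ((6 * T + 6) ^ j * R ^ (k + 1)) := Nat.mul_le_mul_right _ (by omega)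
        _ = (6 * T + 6) ^ (j + 1) * R ^ (k + 1) := by ring

end Pool.Agent.Helper19.LC
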