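import Pool.Agent.Helper19.LC.Main

/-! Consequences: complexity `n^(1+o(1))`, linear complexity, automatic sets. -/

namespace Pool.Agent.Helper19.LC

open Finset Filter

lemma complexity_le_two_pow (A : Set ℕ) (n : ℕ) : complexity A n ≤ 2 ^ n := by
  have h1 : (Set.range fun x : ℕ => {i : ℕ | i < n ∧ x + i ∈ A}) ⊆
      ((fun s : Finset ℕ => (s : Set ℕ)) '' ((range n).powerset : Set (Finset ℕ))) := by
    rintro _ ⟨x, rfl⟩
    refine ⟨win A n x, ?_, coe_win A n x⟩
    rw [mem_coe, mem_powerset]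
    intro i hi
    have h2 : i ∈ ((win A n x : Finset ℕ) : Set ℕ) := hi
    rw [coe_win] at h2
    exact mem_range.2 h2.1
  calc complexity A n ≤ _ := Set.ncard_le_ncard h1 (Set.toFinite _)
    _ ≤ ((range n).powerset : Set (Finset ℕ)).ncard := Set.ncard_image_le (Set.toFinite _)
    _ = 2 ^ n := by rw [Set.ncard_coe_finset, card_powerset, card_range]

/-- sets of complexity `n ^ (1 + o(1))` -/
theorem unbounded_of_complexity {A : Set ℕ} {ε : ℝ} (hε : 0 < ε)
    (hp : ∀ η : ℝ, 0 < η → ∀ᶠ n : ℕ in atTop, (complexity A n : ℝ) ≤ (n : ℝ) ^ (1 + η))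
    (hA : ∃ᶠ N : ℕ in atTop, (N : ℝ) ^ ε ≤ ((A ∩ Set.Iio N).ncard : ℝ)) (g : ℕ) :
    ∃ n, g ≤ rep A n := by
  obtain ⟨c, hc, hmain⟩ := rep_large ε hε
  -- choose `η`
  set Γ : ℝ := Real.log (g / c + 1) with hΓ
  have hΓ0 : 0 ≤ Γ := Real.log_nonneg (by
    have : (0 : ℝ) ≤ g / c := by positivity
    linarith)
  set η : ℝ := c / (2 * (Γ + 1)) with hη
  have hη0 : 0 < η := by rw [hη]; positivity
  obtain ⟨n0, hn0⟩ := eventually_atTop.1 (hp η hη0)
  -- uniform bound
  set C : ℝ := 2 ^ n0 with hC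
  have hC1 : 1 ≤ C := one_le_pow₀ (by norm_num)
  have hbound : ∀ n : ℕ, 1 ≤ n → (complexity A n : ℝ) ≤ C * (n : ℝ) ^ (1 + η) := by
    intro n hn
    have hn1 : (1 : ℝ) ≤ (n : ℝ) ^ (1 + η) :=
      Real.one_le_rpow (by exact_mod_cast hn) (by linarith)
    rcases lt_or_ge n n0 with h | h
    · have h1 : (complexity A n : ℝ) ≤ 2 ^ n := by exact_mod_cast complexity_le_two_pow A n
      have h2 : (2 : ℝ) ^ n ≤ C := pow_le_pow_right₀ (by norm_num) h.le
      nlinarith
    · have h1 := hn0 n h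
      nlinarith
  -- large `N`
  have hlim : ∀ᶠ N : ℕ in atTop, Real.log (3 * C) ≤ η * Real.log N :=
    (Tendsto.const_mul_atTop hη0 (Real.tendsto_log_atTop.comp
      tendsto_natCast_atTop_atTop)).eventually_ge_atTop _
  obtain ⟨N, hN, hN1, hN2⟩ := (hA.and_eventually (hlim.and (eventually_ge_atTop 2))).exists
  have hNr : (2 : ℝ) ≤ N := by exact_mod_cast hN2
  have hNη : (1 : ℝ) ≤ (N : ℝ) ^ η := Real.one_le_rpow (by linarith) hη0.le
  obtain ⟨T, hT1, hT2, hT3⟩ : ∃ T : ℕ, 1 ≤ T ∧ C * (N : ℝ) ^ η ≤ T ∧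
      (T : ℝ) ≤ C * (N : ℝ) ^ η + 1 := by
    refine ⟨⌈C * (N : ℝ) ^ η⌉₊, ?_, Nat.le_ceil _, (Nat.ceil_lt_add_one (by positivity)).le⟩
    rw [Nat.one_le_ceil_iff]
    positivity
  obtain ⟨n, _, hn⟩ := hmain A T N hT1 (by omega) (by
    intro n hn hnN
    have h1 := hbound n hn
    have h2 : (n : ℝ) ^ (1 + η) ≤ (N : ℝ) ^ η * n := by
      have hn' : (0 : ℝ) < n := by exact_mod_cast hn
      rw [Real.rpow_add hn', Real.rpow_one, mul_comm]
      apply mul_le_mul_of_nonneg_right _ hn'.le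
      exact Real.rpow_le_rpow hn'.le (by exact_mod_cast hnN) hη0.le
    have h3 : (complexity A n : ℝ) ≤ T * n := by
      calc (complexity A n : ℝ) ≤ C * ((N : ℝ) ^ η * n) := by nlinarith
        _ = (C * (N : ℝ) ^ η) * n := by ring
        _ ≤ T * n := mul_le_mul_of_nonneg_right hT2 (by positivity)
    exact_mod_cast h3) hN
  refine ⟨n, ?_⟩
  have hlogN : 0 < Real.log N := Real.log_pos (by linarith)
  have hT1' : (1 : ℝ) ≤ T := by exact_mod_cast hT1
  have hlogT : Real.log (T + 1) ≤ 2 * η * Real.log N := by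
    have h1 : (T : ℝ) + 1 ≤ 3 * C * (N : ℝ) ^ η := by
      have : (1 : ℝ) ≤ C * (N : ℝ) ^ η := by nlinarith
      linarith
    calc Real.log (T + 1) ≤ Real.log (3 * C * (N : ℝ) ^ η) := Real.log_le_log (by linarith) h1
      _ = Real.log (3 * C) + η * Real.log N := by
        rw [Real.log_mul (by positivity) (by positivity), Real.log_rpow (by linarith)]
      _ ≤ 2 * η * Real.log N := by linarith
  have hlogT0 : 0 < Real.log (T + 1) := Real.log_pos (by linarith)
  have hexp : (g : ℝ) / c + 1 ≤ (N : ℝ) ^ (c / Real.log (T + 1)) := by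
    rw [Real.rpow_def_of_pos (by linarith)]
    rw [← Real.log_le_iff_le_exp (by positivity)]
    rw [← hΓ, mul_div_assoc', le_div_iff₀ hlogT0]
    calc Γ * Real.log (T + 1) ≤ Γ * (2 * η * Real.log N) := mul_le_mul_of_nonneg_left hlogT hΓ0
      _ ≤ (Γ + 1) * (2 * η * Real.log N) :=
        mul_le_mul_of_nonneg_right (by linarith) (by positivity)
      _ = Real.log N * c := by rw [hη]; field_simp
  have h5 : (g : ℝ) ≤ c * (N : ℝ) ^ (c / Real.log (T + 1)) := by
    calc (g : ℝ) ≤ c * (g / c + 1) := by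
          rw [mul_add, mul_div_cancel₀ _ hc.ne']
          linarith
      _ ≤ _ := mul_le_mul_of_nonneg_left hexp hc.le
  exact_mod_cast h5.trans hn

/-- the `m`-kernel of a set -/
def kernel (m : ℕ) (A : Set ℕ) : Set (Set ℕ) :=
  {V | ∃ j r : ℕ, r < m ^ j ∧ V = {n | m ^ j * n + r ∈ A}}

/-- `A` is `m`-automatic -/
def IsAutomatic (m : ℕ) (A : Set ℕ) : Prop := 2 ≤ m ∧ (kernel m A).Finite

/-- automatic sets have linear complexity -/
theorem complexity_automatic {m : ℕ} {A : Set ℕ} (h : IsAutomatic m A) :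
    ∃ C : ℕ, 1 ≤ C ∧ ∀ n, 1 ≤ n → complexity A n ≤ C * n := by
  classical
  obtain ⟨hm, hfin⟩ := h
  set K := hfin.toFinset with hK
  refine ⟨m * (2 ^ K.card * 2 ^ K.card), ?_, ?_⟩
  · apply Nat.one_le_iff_ne_zero.2
    positivity
  intro n hn
  -- choose `j` with `m ^ (j-1) < n ≤ m ^ j`
  set j := Nat.clog m n with hj
  have hj1 : n ≤ m ^ j := Nat.le_pow_clog (by omega) n
  have hj2 : m ^ j ≤ m * n := by
    rcases Nat.eq_zero_or_pos j with h0 | h0
    · rw [h0]; simp; nlinarith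
    · have h1 : 1 < n := by
        by_contra hcon
        have : n = 1 := by omega
        rw [this] at hj
        simp [Nat.clog_one_right] at hj
        omega
      have h2 : m ^ (j - 1) < n := by
        rw [hj]; exact Nat.pow_pred_clog_lt_self (by omega) h1
      calc m ^ j = m * m ^ (j - 1) := by
            rw [← pow_succ']
            congr 1
            omega
        _ ≤ m * n := Nat.mul_le_mul_left _ h2.le
  set M := m ^ j with hM
  have hMpos : 0 < M := by rw [hM]; positivity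
  -- code of a position
  let st : ℕ → Finset (Set ℕ) := fun q => K.filter (fun V => q ∈ V)
  let code : ℕ → ℕ × Finset (Set ℕ) × Finset (Set ℕ) := fun x => (x % M, st (x / M), st (x / M + 1))
  have hst : ∀ q q' r, r < M → st q = st q' → (M * q + r ∈ A ↔ M * q' + r ∈ A) := by
    intro q q' r hr h
    have hV : {n | m ^ j * n + r ∈ A} ∈ K := by
      rw [hK, Set.Finite.mem_toFinset]
      exact ⟨j, r, hr, rfl⟩
    have h1 : {n | m ^ j * n + r ∈ A} ∈ st q ↔ {n | m ^ j * n + r ∈ A} ∈ st q' := by rw [h]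
    simp only [st, mem_filter, hV, true_and] at h1
    exact h1
  have hcode : ∀ x y, code x = code y → {i : ℕ | i < n ∧ x + i ∈ A} = {i : ℕ | i < n ∧ y + i ∈ A} := by
    intro x y hxy
    simp only [code, Prod.mk.injEq] at hxy
    obtain ⟨h1, h2, h3⟩ := hxy
    ext i
    simp only [Set.mem_ofPred_eq]
    refine and_congr_right (fun hi => ?_)
    have hxd := Nat.div_add_mod x M
    have hyd := Nat.div_add_mod y M
    have hr := Nat.mod_lt x hMpos
    by_cases hs : x % M + i < M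
    · have e1 : x + i = M * (x / M) + (x % M + i) := by omega
      have e2 : y + i = M * (y / M) + (x % M + i) := by omega
      rw [e1, e2]
      exact hst _ _ _ hs h2
    · have e1 : x + i = M * (x / M + 1) + (x % M + i - M) := by rw [Nat.mul_add]; omega
      have e2 : y + i = M * (y / M + 1) + (x % M + i - M) := by rw [Nat.mul_add]; omega
      rw [e1, e2]
      exact hst _ _ _ (by omega) h3
  -- count
  let S : Finset (ℕ × Finset (Set ℕ) × Finset (Set ℕ)) := range M ×ˢ (K.powerset ×ˢ K.powerset)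
  have hmemS : ∀ x, code x ∈ S := by
    intro x
    simp only [S, code, mem_product, mem_range, mem_powerset]
    exact ⟨Nat.mod_lt x hMpos, filter_subset _ _, filter_subset _ _⟩
  let F : ℕ × Finset (Set ℕ) × Finset (Set ℕ) → Set ℕ := fun s =>
    if h : ∃ x, code x = s then {i : ℕ | i < n ∧ h.choose + i ∈ A} else ∅
  have hsub : (Set.range fun x : ℕ => {i : ℕ | i < n ∧ x + i ∈ A}) ⊆ F '' (S : Set _) := by
    rintro _ ⟨x, rfl⟩
    refine ⟨code x, hmemS x, ?_⟩
    have hex : ∃ y, code y = code x := ⟨x, rfl⟩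
    simp only [F, dif_pos hex]
    exact hcode _ _ hex.choose_spec
  calc complexity A n ≤ (F '' (S : Set _)).ncard := Set.ncard_le_ncard hsub (Set.toFinite _)
    _ ≤ (S : Set (ℕ × Finset (Set ℕ) × Finset (Set ℕ))).ncard := Set.ncard_image_le (Set.toFinite _)
    _ = M * (2 ^ K.card * 2 ^ K.card) := by
      rw [Set.ncard_coe_finset]
      simp only [S, card_product, card_range, card_powerset]
    _ ≤ m * n * (2 ^ K.card * 2 ^ K.card) := Nat.mul_le_mul_right _ hj2
    _ = m * (2 ^ K.card * 2 ^ K.card) * n := by ring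

/-- linear complexity: power growth at every scale at which `A` is large -/
theorem power_of_linear {A : Set ℕ} {ε : ℝ} (hε : 0 < ε) {C : ℕ} (hC : 1 ≤ C)
    (hp : ∀ n, 1 ≤ n → complexity A n ≤ C * n) :
    ∃ c : ℝ, 0 < c ∧ ∀ N : ℕ, 1 ≤ N → (N : ℝ) ^ ε ≤ ((A ∩ Set.Iio N).ncard : ℝ) →
      ∃ n, n < 2 * N ∧ c * (N : ℝ) ^ c ≤ (rep A n : ℝ) := by
  obtain ⟨c, hc, hmain⟩ := rep_large ε hε
  have hC1 : (1 : ℝ) ≤ C := by exact_mod_cast hC
  have hlog : 0 < Real.log (C + 1) := Real.log_pos (by linarith)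
  refine ⟨min c (c / Real.log (C + 1)), lt_min hc (by positivity), fun N hN hA => ?_⟩
  obtain ⟨n, h1, h2⟩ := hmain A C N hC hN (fun n hn _ => hp n hn) hA
  refine ⟨n, h1, le_trans ?_ h2⟩
  have hN1 : (1 : ℝ) ≤ N := by exact_mod_cast hN
  exact mul_le_mul (min_le_left _ _)
    (Real.rpow_le_rpow_of_exponent_le hN1 (min_le_right _ _)) (by positivity) hc.le

end Pool.Agent.Helper19.LC
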