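import Pool.Agent.Helper19.LC.Cube

/-! Windows which contain a cube: all different if there is no larger cube. -/

namespace Pool.Agent.Helper19.LC

open Finset

/-- two equal windows of length `3 l` at distance `δ`, one with a `k`-cube inside an interval of
length `l` near its left end, give a `(k+1)`-cube -/
lemma hasCube_of_win_eq {A : Set ℕ} {l x δ z k : ℕ} (hδ : 1 ≤ δ)
    (h : ∀ i < 3 * l, (x + i ∈ A ↔ x + δ + i ∈ A)) (hxz : x ≤ z) (hzx : z < x + l)
    (hc : HasCube (A ∩ Set.Ico z (z + l)) k) :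
    HasCube (A ∩ Set.Ico x (x + δ + 3 * l)) (k + 1) := by
  have step : ∀ q, q ∈ A → x ≤ q → q < x + 3 * l → q + δ ∈ A := by
    intro q hq h1 h2
    have h3 := (h (q - x) (by omega)).1
    have e1 : x + (q - x) = q := by omega
    have e2 : x + δ + (q - x) = q + δ := by omega
    rw [e1, e2] at h3
    exact h3 hq
  obtain ⟨j, hj1, hj2⟩ : ∃ j, l ≤ (j + 1) * δ ∧ j * δ < l := by
    refine ⟨(l - 1) / δ, ?_, ?_⟩
    · have := Nat.lt_mul_div_succ (l - 1) (show 0 < δ by omega)
      have e : δ * ((l - 1) / δ + 1) = ((l - 1) / δ + 1) * δ := Nat.mul_comm _ _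
      omega
    · have := Nat.div_mul_le_self (l - 1) δ
      omega
  have iter : ∀ i ≤ j + 1, ∀ q ∈ A, z ≤ q → q < z + l → q + i * δ ∈ A := by
    intro i
    induction i with
    | zero => intro _ q hq _ _; simpa using hq
    | succ i ih =>
      intro hi q hq h1 h2
      have e1 : q + (i + 1) * δ = q + i * δ + δ := by ring
      rw [e1]
      have h3 : i * δ ≤ j * δ := Nat.mul_le_mul_right _ (by omega)
      exact step _ (ih (by omega) q hq h1 h2) (by omega) (by omega)
  refine HasCube.double (x := z) (n := l) (δ := (j + 1) * δ) hc (fun q hq => hq.2) hj1 ?_ ?_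
  · intro q hq
    refine ⟨hq.1, ?_⟩
    have := hq.2
    simp only [Set.mem_Ico] at *
    omega
  · intro q hq
    have h2 := hq.2
    simp only [Set.mem_Ico] at h2
    refine ⟨iter (j + 1) le_rfl q hq.1 h2.1 h2.2, ?_⟩
    simp only [Set.mem_Ico]
    have e1 : (j + 1) * δ = j * δ + δ := by ring
    omega

/-- if `A ∩ [u, v)` has no cube of dimension `k + 1`, few windows of length `3 l` inside have a cube
of dimension `k` in an interval of length `l` near their left end -/
lemma card_positions_le {A : Set ℕ} {u v l k : ℕ}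
    (hno : ¬ HasCube (A ∩ Set.Ico u v) (k + 1)) (P : Finset ℕ)
    (hP : ∀ x ∈ P, u ≤ x ∧ x + 3 * l ≤ v ∧
      ∃ z, x ≤ z ∧ z < x + l ∧ HasCube (A ∩ Set.Ico z (z + l)) k) :
    P.card ≤ complexity A (3 * l) := by
  have hinj : Set.InjOn (win A (3 * l)) P := by
    intro x hx y hy hxy
    by_contra hne
    wlog hlt : x < y generalizing x y
    · exact this hy hx hxy.symm (Ne.symm hne) (by omega)
    obtain ⟨a1, a2, z, a3, a4, a5⟩ := hP x hx
    obtain ⟨b1, b2, _⟩ := hP y hy
    obtain ⟨δ, rfl⟩ : ∃ δ, y = x + δ := ⟨y - x, by omega⟩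
    apply hno
    refine (hasCube_of_win_eq (by omega) (win_eq_iff hxy) a3 a4 a5).mono ?_
    intro q hq
    refine ⟨hq.1, ?_⟩
    have := hq.2
    simp only [Set.mem_Ico] at *
    omega
  rw [← card_image_of_injOn hinj]
  exact card_image_win A (3 * l) P

end Pool.Agent.Helper19.LC
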