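import Mathlib

/-! Hilbert cubes in sets of natural numbers, windows and factor complexity. -/

namespace Pool.Agent.Helper19.LC

open Finset

/-- the set of all sums `a + (sub-sum of ds)` -/
def cubeSet (a : ℕ) : List ℕ → Finset ℕ
  | [] => {a}
  | d :: ds => cubeSet a ds ∪ (cubeSet a ds).image (· + d)

/-- `S` contains a proper Hilbert cube of dimension `k` -/
def HasCube (S : Set ℕ) (k : ℕ) : Prop :=
  ∃ (a : ℕ) (ds : List ℕ), ds.length = k ∧ (∀ q ∈ cubeSet a ds, q ∈ S) ∧
    (cubeSet a ds).card = 2 ^ k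

lemma HasCube.mono {S S' : Set ℕ} {k : ℕ} (h : HasCube S k) (hS : S ⊆ S') : HasCube S' k := by
  obtain ⟨a, ds, h1, h2, h3⟩ := h
  exact ⟨a, ds, h1, fun q hq => hS (h2 q hq), h3⟩

lemma a_mem_cubeSet (a : ℕ) (ds : List ℕ) : a ∈ cubeSet a ds := by
  induction ds with
  | nil => simp [cubeSet]
  | cons d ds ih => simp [cubeSet, ih]

lemma HasCube.nonempty {S : Set ℕ} {k : ℕ} (h : HasCube S k) : S.Nonempty := by
  obtain ⟨a, ds, h1, h2, h3⟩ := h
  exact ⟨a, h2 a (a_mem_cubeSet a ds)⟩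

lemma hasCube_zero {S : Set ℕ} (h : S.Nonempty) : HasCube S 0 := by
  obtain ⟨a, ha⟩ := h
  exact ⟨a, [], rfl, by simpa [cubeSet] using ha, by simp [cubeSet]⟩

/-- a cube in `S` together with a disjoint translate of it gives a larger cube -/
lemma HasCube.double {S S' : Set ℕ} {k δ x n : ℕ} (h : HasCube S k) (hS : S ⊆ Set.Ico x (x + n))
    (hδ : n ≤ δ) (h1 : S ⊆ S') (h2 : ∀ q ∈ S, q + δ ∈ S') : HasCube S' (k + 1) := by
  obtain ⟨a, ds, e1, e2, e3⟩ := h
  refine ⟨a, δ :: ds, by simp [e1], ?_, ?_⟩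
  · intro q hq
    simp only [cubeSet, mem_union, mem_image] at hq
    rcases hq with hq | ⟨p, hp, rfl⟩
    · exact h1 (e2 q hq)
    · exact h2 p (e2 p hp)
  · simp only [cubeSet]
    rw [card_union_of_disjoint, card_image_of_injective, e3]
    · ring
    · intro p q hpq
      simpa using hpq
    · rw [Finset.disjoint_left]
      intro q hq hq'
      simp only [mem_image] at hq'
      obtain ⟨p, hp, rfl⟩ := hq'
      have := hS (e2 _ hq)
      have := hS (e2 _ hp)
      simp only [Set.mem_Ico] at *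
      omega

/-- an arithmetic progression of length `2 ^ k` contains a cube of dimension `k` -/
lemma hasCube_of_progression {S : Set ℕ} {a d : ℕ} (k : ℕ) (hd : 1 ≤ d)
    (h : ∀ j < 2 ^ k, a + j * d ∈ S) : HasCube S k := by
  have key : ∀ k : ℕ, ∃ ds : List ℕ, ds.length = k ∧
      cubeSet a ds = (range (2 ^ k)).image (fun j => a + j * d) := by
    intro k
    induction k with
    | zero => exact ⟨[], rfl, by simp [cubeSet]⟩
    | succ k ih =>
      obtain ⟨ds, h1, h2⟩ := ih
      refine ⟨2 ^ k * d :: ds, by simp [h1], ?_⟩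
      simp only [cubeSet, h2]
      ext q
      simp only [mem_union, mem_image, mem_range]
      constructor
      · rintro (⟨j, hj, rfl⟩ | ⟨p, ⟨j, hj, rfl⟩, rfl⟩)
        · exact ⟨j, by rw [pow_succ]; omega, rfl⟩
        · exact ⟨j + 2 ^ k, by rw [pow_succ]; omega, by ring⟩
      · rintro ⟨j, hj, rfl⟩
        by_cases hj' : j < 2 ^ k
        · exact Or.inl ⟨j, hj', rfl⟩
        · right
          refine ⟨a + (j - 2 ^ k) * d, ⟨j - 2 ^ k, by rw [pow_succ] at hj; omega, rfl⟩, ?_⟩
          have : j = (j - 2 ^ k) + 2 ^ k := by omega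
          conv_rhs => rw [this]
          ring
  obtain ⟨ds, h1, h2⟩ := key k
  refine ⟨a, ds, h1, ?_, ?_⟩
  · intro q hq
    rw [h2] at hq
    simp only [mem_image, mem_range] at hq
    obtain ⟨j, hj, rfl⟩ := hq
    exact h j hj
  · rw [h2, card_image_of_injective, card_range]
    intro i j hij
    simp only [add_right_inj] at hij
    exact Nat.eq_of_mul_eq_mul_right hd hij

lemma cubeSet_symm (a : ℕ) (ds : List ℕ) : ∀ q ∈ cubeSet a ds,
    ∃ q' ∈ cubeSet a ds, q + q' = 2 * a + ds.sum := by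
  induction ds with
  | nil =>
    intro q hq
    simp only [cubeSet, mem_singleton] at hq
    subst hq
    exact ⟨q, by simp [cubeSet], by simp; ring⟩
  | cons d ds ih =>
    intro q hq
    simp only [cubeSet, mem_union, mem_image] at hq
    rcases hq with hq | ⟨p, hp, rfl⟩
    · obtain ⟨q', h1, h2⟩ := ih q hq
      refine ⟨q' + d, ?_, ?_⟩
      · simp only [cubeSet, mem_union, mem_image]
        exact Or.inr ⟨q', h1, rfl⟩
      · rw [List.sum_cons]; omega
    · obtain ⟨q', h1, h2⟩ := ih p hp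
      refine ⟨q', ?_, ?_⟩
      · simp only [cubeSet, mem_union]
        exact Or.inl h1
      · rw [List.sum_cons]; omega

/-- number of ordered representations -/
noncomputable def rep (A : Set ℕ) (n : ℕ) : ℕ :=
  {q : ℕ × ℕ | q.1 ∈ A ∧ q.2 ∈ A ∧ q.1 + q.2 = n}.ncard

lemma rep_finite (A : Set ℕ) (n : ℕ) : {q : ℕ × ℕ | q.1 ∈ A ∧ q.2 ∈ A ∧ q.1 + q.2 = n}.Finite := by
  apply Set.Finite.subset ((Set.finite_Iic n).prod (Set.finite_Iic n))
  rintro ⟨a, b⟩ ⟨_, _, h⟩
  simp only [Set.mem_prod, Set.mem_Iic]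
  simp only at h
  omega

/-- a cube of dimension `k` in `A ∩ [0, N)` gives `n < 2 N` with `2 ^ k ≤ r_A(n)` -/
lemma HasCube.rep_le {A : Set ℕ} {k N : ℕ} (h : HasCube (A ∩ Set.Iio N) k) :
    ∃ n, n < 2 * N ∧ 2 ^ k ≤ rep A n := by
  obtain ⟨a, ds, h1, h2, h3⟩ := h
  refine ⟨2 * a + ds.sum, ?_, ?_⟩
  · obtain ⟨q', e1, e2⟩ := cubeSet_symm a ds a (a_mem_cubeSet a ds)
    have := (h2 _ e1).2
    have := (h2 _ (a_mem_cubeSet a ds)).2
    simp only [Set.mem_Iio] at *
    omega
  · have hinj : ∀ q ∈ cubeSet a ds, q ≤ 2 * a + ds.sum ∧ 2 * a + ds.sum - q ∈ cubeSet a ds := by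
      intro q hq
      obtain ⟨q', e1, e2⟩ := cubeSet_symm a ds q hq
      refine ⟨by omega, ?_⟩
      have : 2 * a + ds.sum - q = q' := by omega
      rw [this]; exact e1
    have hsub : (((cubeSet a ds).image (fun q => (q, 2 * a + ds.sum - q)) : Finset (ℕ × ℕ)) :
        Set (ℕ × ℕ)) ⊆ {q : ℕ × ℕ | q.1 ∈ A ∧ q.2 ∈ A ∧ q.1 + q.2 = 2 * a + ds.sum} := by
      intro p hp
      simp only [coe_image, Set.mem_image, mem_coe] at hp
      obtain ⟨q, hq, rfl⟩ := hp
      obtain ⟨e1, e2⟩ := hinj q hq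
      refine ⟨(h2 q hq).1, (h2 _ e2).1, ?_⟩
      simp only
      omega
    have := Set.ncard_le_ncard hsub (rep_finite A _)
    rw [Set.ncard_coe_finset, card_image_of_injective, h3] at this
    · exact this
    · intro p q hpq
      simp only [Prod.mk.injEq] at hpq
      exact hpq.1

/-- The factor complexity of the characteristic word of `A`: the number of different windows
`{i < n : x + i ∈ A}`. -/
noncomputable def complexity (A : Set ℕ) (n : ℕ) : ℕ :=
  (Set.range fun x : ℕ => {i : ℕ | i < n ∧ x + i ∈ A}).ncard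

open Classical in
/-- the window as a finite set -/
noncomputable def win (A : Set ℕ) (n x : ℕ) : Finset ℕ := (range n).filter (fun i => x + i ∈ A)

lemma coe_win (A : Set ℕ) (n x : ℕ) : (win A n x : Set ℕ) = {i : ℕ | i < n ∧ x + i ∈ A} := by
  ext i
  simp [win]

lemma range_finite (A : Set ℕ) (n : ℕ) :
    (Set.range fun x : ℕ => {i : ℕ | i < n ∧ x + i ∈ A}).Finite := by
  apply Set.Finite.subset ((Set.finite_Iio n).finite_subsets)
  rintro _ ⟨x, rfl⟩
  intro i hi
  exact hi.1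

lemma card_image_win (A : Set ℕ) (n : ℕ) (P : Finset ℕ) :
    (P.image (win A n)).card ≤ complexity A n := by
  have h1 : (((P.image (win A n)).image (fun s : Finset ℕ => (s : Set ℕ)) : Finset (Set ℕ)) :
      Set (Set ℕ)) ⊆ Set.range fun x : ℕ => {i : ℕ | i < n ∧ x + i ∈ A} := by
    intro s hs
    simp only [coe_image, Set.mem_image, mem_coe] at hs
    obtain ⟨w, ⟨x, hx, rfl⟩, rfl⟩ := hs
    exact ⟨x, (coe_win A n x).symm⟩
  have h2 := Set.ncard_le_ncard h1 (range_finite A n)
  rw [Set.ncard_coe_finset, card_image_of_injective _ Finset.coe_injective] at h2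
  exact h2

lemma win_eq_iff {A : Set ℕ} {n x y : ℕ} (h : win A n x = win A n y) :
    ∀ i < n, (x + i ∈ A ↔ y + i ∈ A) := by
  intro i hi
  have : i ∈ win A n x ↔ i ∈ win A n y := by rw [h]
  simpa [win, hi] using this

end Pool.Agent.Helper19.LC
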