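import Pool.Agent.Helper19.LC.Blocks

/-! Low complexity sets contain large cubes. -/

namespace Pool.Agent.Helper19.LC

open Finset

lemma cnt_add (A : Set ℕ) (u L L' : ℕ) : cnt A u (L + L') = cnt A u L + cnt A (u + L) L' := by
  classical
  simp only [cnt]
  have h1 : Ico u (u + (L + L')) = Ico u (u + L) ∪ Ico (u + L) (u + L + L') := by
    rw [Ico_union_Ico_eq_Ico (by omega) (by omega)]
    congr 1
    ring
  rw [h1, filter_union, card_union_of_disjoint]
  exact disjoint_filter_filter (Ico_disjoint_Ico_consecutive _ _ _)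

lemma cnt_mono {A : Set ℕ} {u L u' L' : ℕ} (h1 : u' ≤ u) (h2 : u + L ≤ u' + L') :
    cnt A u L ≤ cnt A u' L' := by
  classical
  apply card_le_card
  apply filter_subset_filter
  exact Ico_subset_Ico h1 h2

/-- FINITE FORM -/
theorem hasCube_of_card {A : Set ℕ} {B k T N : ℕ} (hB : 1 ≤ B) (hN : 1 ≤ N)
    (hp : ∀ n, 1 ≤ n → n ≤ N → complexity A n ≤ T * n)
    (hcard : N * (6 * T + 6) ^ (B ^ 2 * (k + 1)) < (A ∩ Set.Iio N).ncard ^ B) :
    HasCube (A ∩ Set.Iio N) k := by
  by_contra hno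
  set b := 6 * T + 6 with hb
  set R := b ^ B with hR
  have hR6 : 6 ≤ R := by
    calc 6 ≤ b := by omega
      _ = b ^ 1 := (pow_one b).symm
      _ ≤ b ^ B := Nat.pow_le_pow_right (by omega) hB
  set j := Nat.log R N with hj
  have hj1 : R ^ j ≤ N := Nat.pow_log_le_self R (by omega)
  have hj2 : N < R ^ (j + 1) := Nat.lt_pow_succ_log_self (by omega) N
  have hT : ∀ i < j, complexity A (3 * R ^ i) ≤ T * (3 * R ^ i) := by
    intro i hi
    apply hp
    · have := Nat.one_le_pow i R (by omega)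
      omega
    · calc 3 * R ^ i ≤ R * R ^ i := Nat.mul_le_mul_right _ (by omega)
        _ = R ^ (i + 1) := by ring
        _ ≤ R ^ j := Nat.pow_le_pow_right (by omega) hi
        _ ≤ N := hj1
  have hmain : ∀ u, u + R ^ j ≤ N → cnt A u (R ^ j) ≤ b ^ j * R ^ k := by
    intro u hu
    apply cnt_le (by omega) hT j le_rfl k u
    intro hc
    apply hno
    apply hc.mono
    intro q hq
    refine ⟨hq.1, ?_⟩
    have := hq.2
    simp only [Set.mem_Ico, Set.mem_Iio] at *
    omega
  have hRj : 0 < R ^ j := Nat.pos_of_ne_zero (pow_ne_zero _ (by omega))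
  set q := N / R ^ j with hq
  have hqR : q < R := by
    rw [hq, Nat.div_lt_iff_lt_mul hRj]
    calc N < R ^ (j + 1) := hj2
      _ = R * R ^ j := by ring
  have hqN : q * R ^ j ≤ N := Nat.div_mul_le_self _ _
  have hqN' : N < q * R ^ j + R ^ j := Nat.lt_div_mul_add hRj
  have hcnt : cnt A 0 N ≤ R * (b ^ j * R ^ k) := by
    have h1 : cnt A 0 N = cnt A 0 (q * R ^ j) + cnt A (0 + q * R ^ j) (N - q * R ^ j) := by
      rw [← cnt_add]
      congr 1
      omega
    have h2 : cnt A 0 (q * R ^ j) ≤ q * (b ^ j * R ^ k) := by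
      rw [cnt_succ_blocks]
      calc _ ≤ ∑ _x ∈ range q, b ^ j * R ^ k := by
            apply sum_le_sum
            intro x hx
            rw [mem_range] at hx
            apply hmain
            have : (x + 1) * R ^ j ≤ q * R ^ j := Nat.mul_le_mul_right _ hx
            have e : (x + 1) * R ^ j = x * R ^ j + R ^ j := by ring
            omega
        _ = q * (b ^ j * R ^ k) := by rw [sum_const, card_range, smul_eq_mul]
    have h3 : cnt A (0 + q * R ^ j) (N - q * R ^ j) ≤ b ^ j * R ^ k := by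
      refine le_trans (cnt_mono (u' := N - R ^ j) (L' := R ^ j) (by omega) (by omega)) ?_
      apply hmain
      omega
    calc cnt A 0 N ≤ q * (b ^ j * R ^ k) + b ^ j * R ^ k := by rw [h1]; exact Nat.add_le_add h2 h3
      _ = (q + 1) * (b ^ j * R ^ k) := by ring
      _ ≤ R * (b ^ j * R ^ k) := Nat.mul_le_mul_right _ hqR
  rw [cnt_eq_ncard] at hcnt
  have hfin : (A ∩ Set.Iio N).ncard ^ B ≤ N * b ^ (B ^ 2 * (k + 1)) := by
    calc (A ∩ Set.Iio N).ncard ^ B ≤ (R * (b ^ j * R ^ k)) ^ B := Nat.pow_le_pow_left hcnt B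
      _ = (b ^ B) ^ j * (R ^ (k + 1)) ^ B := by ring
      _ = R ^ j * b ^ (B ^ 2 * (k + 1)) := by
        rw [← hR]
        congr 1
        rw [hR]
        ring
      _ ≤ N * b ^ (B ^ 2 * (k + 1)) := Nat.mul_le_mul_right _ hj1
  omega

/-- REAL FORM: power growth. -/
theorem rep_large (ε : ℝ) (hε : 0 < ε) : ∃ c : ℝ, 0 < c ∧ ∀ (A : Set ℕ) (T N : ℕ), 1 ≤ T → 1 ≤ N →
    (∀ n, 1 ≤ n → n ≤ N → complexity A n ≤ T * n) →
    (N : ℝ) ^ ε ≤ ((A ∩ Set.Iio N).ncard : ℝ) →
    ∃ n, n < 2 * N ∧ c * (N : ℝ) ^ (c / Real.log (T + 1)) ≤ (rep A n : ℝ) := by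
  obtain ⟨B, hB⟩ := exists_nat_ge (2 / ε)
  have hB0 : (0 : ℝ) < B := lt_of_lt_of_le (by positivity) hB
  have hB1 : 1 ≤ B := by exact_mod_cast Nat.pos_of_ne_zero (by rintro rfl; simp at hB0)
  have hB1' : (1 : ℝ) ≤ B := by exact_mod_cast hB1
  have hlog2 : 0 < Real.log 2 := Real.log_pos (by norm_num)
  have hlog2' : Real.log 2 < 1 := by
    have := Real.log_two_lt_d9
    linarith
  refine ⟨Real.log 2 / (4 * B ^ 2), by positivity, ?_⟩
  intro A T N hT hN hp hA
  set c := Real.log 2 / (4 * (B : ℝ) ^ 2) with hc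
  have hc0 : 0 < c := by rw [hc]; positivity
  have hc4 : c ≤ 1 / 4 := by
    rw [hc, div_le_div_iff₀ (by positivity) (by norm_num)]
    nlinarith
  set b : ℝ := 6 * T + 6 with hb
  have hT1 : (1 : ℝ) ≤ T := by exact_mod_cast hT
  have hN1 : (1 : ℝ) ≤ N := by exact_mod_cast hN
  have hlogT : Real.log 2 ≤ Real.log (T + 1) := Real.log_le_log (by norm_num) (by linarith)
  have hlogT0 : 0 < Real.log (T + 1) := lt_of_lt_of_le hlog2 hlogT
  have hlogb : Real.log b ≤ 4 * Real.log (T + 1) := by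
    have e : b = 6 * (T + 1) := by rw [hb]; ring
    rw [e, Real.log_mul (by norm_num) (by positivity)]
    have : Real.log 6 ≤ 3 * Real.log 2 := by
      rw [← Real.log_rpow (by norm_num)]
      apply Real.log_le_log (by norm_num)
      norm_num
    linarith
  have hlogb0 : 0 < Real.log b := Real.log_pos (by rw [hb]; linarith)
  have hlogN : 0 ≤ Real.log N := Real.log_nonneg hN1
  set L : ℝ := Real.log N / (B ^ 2 * Real.log b) with hL
  have hL0 : 0 ≤ L := by rw [hL]; positivity
  -- the target is at most `2 ^ L / 4`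
  have htarget : c * (N : ℝ) ^ (c / Real.log (T + 1)) ≤ (1 / 4) * (2 : ℝ) ^ L := by
    apply mul_le_mul hc4 _ (by positivity) (by norm_num)
    rw [Real.rpow_def_of_pos (by linarith), Real.rpow_def_of_pos (by norm_num)]
    apply Real.exp_le_exp.2
    have e1 : Real.log N * (c / Real.log (T + 1)) = (Real.log N * Real.log 2 / B ^ 2) *
        (1 / (4 * Real.log (T + 1))) := by
      rw [hc]; field_simp
    have e2 : Real.log 2 * L = (Real.log N * Real.log 2 / B ^ 2) * (1 / Real.log b) := by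
      rw [hL]; field_simp
    rw [e1, e2]
    apply mul_le_mul_of_nonneg_left _ (by positivity)
    exact one_div_le_one_div_of_le hlogb0 hlogb
  by_cases hL1 : L ≤ 1
  · -- trivial case
    have hne : (A ∩ Set.Iio N).Nonempty := by
      rw [Set.nonempty_iff_ne_empty]
      intro h
      rw [h, Set.ncard_empty] at hA
      have : (0 : ℝ) < (N : ℝ) ^ ε := by positivity
      simp at hA
      linarith
    obtain ⟨n, h1, h2⟩ := (hasCube_zero hne).rep_le
    refine ⟨n, h1, htarget.trans ?_⟩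
    have h3 : (1 : ℝ) ≤ (rep A n : ℝ) := by
      have : 1 ≤ rep A n := by simpa using h2
      exact_mod_cast this
    have h4 : (2 : ℝ) ^ L ≤ 2 := by
      calc (2 : ℝ) ^ L ≤ (2 : ℝ) ^ (1 : ℝ) := Real.rpow_le_rpow_of_exponent_le (by norm_num) hL1
        _ = 2 := Real.rpow_one 2
    linarith
  · push Not at hL1
    -- choose k
    obtain ⟨k, hk1, hk2⟩ : ∃ k : ℕ, (k : ℝ) + 1 < L ∧ L ≤ (k : ℝ) + 2 := by
      refine ⟨⌈L⌉₊ - 2, ?_, ?_⟩
      · have h1 : 2 ≤ ⌈L⌉₊ := by
          have : 1 < ⌈L⌉₊ := by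
            rw [Nat.lt_ceil]; exact_mod_cast hL1
          omega
        have h2 := Nat.ceil_lt_add_one hL0
        rw [Nat.cast_sub h1]
        push_cast
        linarith
      · have h1 : 2 ≤ ⌈L⌉₊ := by
          have : 1 < ⌈L⌉₊ := by
            rw [Nat.lt_ceil]; exact_mod_cast hL1
          omega
        have h2 := Nat.le_ceil L
        rw [Nat.cast_sub h1]
        push_cast
        linarith
    have hcube : HasCube (A ∩ Set.Iio N) k := by
      apply hasCube_of_card hB1 hN hp
      have h1 : (N : ℝ) * b ^ (B ^ 2 * (k + 1)) < ((A ∩ Set.Iio N).ncard : ℝ) ^ B := by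
        have h2 : b ^ (B ^ 2 * (k + 1)) < (N : ℝ) := by
          have e1 : b ^ (B ^ 2 * (k + 1)) = Real.exp ((B : ℝ) ^ 2 * (k + 1) * Real.log b) := by
            rw [← Real.rpow_natCast, Real.rpow_def_of_pos (by rw [hb]; linarith)]
            congr 1
            push_cast
            ring
          rw [e1, ← Real.lt_log_iff_exp_lt (by linarith)]
          have h3 : ((k : ℝ) + 1) * ((B : ℝ) ^ 2 * Real.log b) < Real.log N := by
            rw [hL, lt_div_iff₀ (by positivity)] at hk1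
            exact hk1
          linarith
        have h4 : (N : ℝ) * N ≤ ((N : ℝ) ^ ε) ^ B := by
          rw [← Real.rpow_natCast, ← Real.rpow_mul (by linarith)]
          have e2 : (N : ℝ) * N = (N : ℝ) ^ (2 : ℝ) := by
            rw [← sq, ← Real.rpow_natCast]; norm_num
          rw [e2]
          apply Real.rpow_le_rpow_of_exponent_le hN1
          rw [div_le_iff₀ hε] at hB
          linarith
        calc (N : ℝ) * b ^ (B ^ 2 * (k + 1)) < N * N := by
              apply mul_lt_mul_of_pos_left h2 (by linarith)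
          _ ≤ ((N : ℝ) ^ ε) ^ B := h4
          _ ≤ ((A ∩ Set.Iio N).ncard : ℝ) ^ B := pow_le_pow_left₀ (by positivity) hA B
      have h5 : ((N * (6 * T + 6) ^ (B ^ 2 * (k + 1)) : ℕ) : ℝ)
          < (((A ∩ Set.Iio N).ncard ^ B : ℕ) : ℝ) := by
        push_cast
        exact h1
      exact_mod_cast h5
    obtain ⟨n, h1, h2⟩ := hcube.rep_le
    refine ⟨n, h1, htarget.trans ?_⟩
    have h3 : (2 : ℝ) ^ L ≤ 4 * 2 ^ k := by
      calc (2 : ℝ) ^ L ≤ (2 : ℝ) ^ ((k : ℝ) + 2) :=
            Real.rpow_le_rpow_of_exponent_le (by norm_num) hk2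
        _ = 4 * 2 ^ k := by
          rw [Real.rpow_add (by norm_num), Real.rpow_natCast]
          norm_num
          ring
    have h4 : ((2 : ℝ) ^ k) ≤ (rep A n : ℝ) := by exact_mod_cast h2
    linarith

end Pool.Agent.Helper19.LC
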